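import Pool.Agent.H304Z.NH.Spec4

set_option autoImplicit false
set_option linter.unusedSectionVars false
set_option linter.unusedVariables false

/-!
Assembly of part two from its four steps.
-/

namespace Pool.Agent.H776Z.NHP2

open Matrix Finset
open scoped MatrixOrder ComplexOrder
open Pool.Agent.H304Z.NH

theorem hyp_mono {G : Type} [Group G] {n : Type} [Fintype n] [DecidableEq n] {u : G → Mat n}
    {U : Mat n} {W W' : Finset G} {ω ω' : ℝ} (h : Hyp u U W ω) (hW : W' ⊆ W) (hω : ω ≤ ω') :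
    Hyp u U W' ω' := by
  obtain ⟨h1, h2, h3, h4, h5, h6⟩ := h
  have hm : ω * tr U ≤ ω' * tr U := mul_le_mul_of_nonneg_right hω h4.le
  refine ⟨h1, h2, h3, h4, fun g hg k hk => ?_, fun g hg => (h6 g (hW hg)).trans hm⟩
  exact ⟨(h5 g (hW hg) k (hW hk)).1.trans hm, (h5 g (hW hg) k (hW hk)).2.trans hm⟩

theorem AA_le {n : Type} [Fintype n] [DecidableEq n] {ι : Type} [Fintype ι] {U : Mat n} {m : ℝ}
    {y : ι → Mat n} (h : Feas U m y) : AA y ≤ m * tr U := by
  have h1 := tr_mono h.2.1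
  rw [tr_smul, LL, tr_sum] at h1
  have e : AA y = ∑ a, tr (y a * (y a)ᴴ) := by
    rw [AA]
    exact sum_congr rfl fun a _ => nsq_eq' _
  rw [e]
  exact h1

theorem p2 (hLI : S_LI) (hLS : S_LS) (hCD : S_CD) (hE : S_E) : Pool.Agent.H304Z.NH.S_P2 := by
  classical
  intro G _ S θ t c hK hS hT ht hc γ hγ
  obtain ⟨K, hK0, hLI'⟩ := hLI G S θ hK
  obtain ⟨ε, hε, hE'⟩ := hE G S θ t c hS ht hc K hK0
  refine ⟨ε, hε, fun J _ _ l => ?_⟩
  obtain ⟨τ, W1, hτ, hE''⟩ := hE' J l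
  obtain ⟨η₀, W2, hη₀, hCD'⟩ := hCD G S θ hS hT K γ τ hK0 hγ hτ
  have hη : 0 < min η₀ τ := lt_min hη₀ hτ
  set η := min η₀ τ with hηdef
  obtain ⟨W3, ω3, hω3, hLI''⟩ := hLI' η hη
  have hcard : (0 : ℝ) < (S.card : ℝ) + 1 := by positivity
  have hω : 0 < min ω3 (η / ((S.card : ℝ) + 1)) := lt_min hω3 (div_pos hη hcard)
  set ω := min ω3 (η / ((S.card : ℝ) + 1)) with hωdef
  have hω1 : ω * ((S.card : ℝ) + 1) ≤ η := by
    have := min_le_right ω3 (η / ((S.card : ℝ) + 1))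
    rw [← hωdef, le_div_iff₀ hcard] at this
    exact this
  have hcard0 : (0 : ℝ) ≤ (S.card : ℝ) := by positivity
  have hωη : ω ≤ η := by nlinarith
  refine ⟨W1 ∪ W2 ∪ W3 ∪ S.image θ, ω, hω, fun n _ _ u hu hu1 U hU hU0 hdf hcm hcb hirr => ?_⟩
  have hH : Hyp u U (W1 ∪ W2 ∪ W3 ∪ S.image θ) ω := ⟨hu, hu1, hU, hU0, hdf, hcm⟩
  have hH1 : Hyp u U W1 η := hyp_mono hH (fun x hx => by simp [hx]) hωη
  have hH2 : Hyp u U W2 η := hyp_mono hH (fun x hx => by simp [hx]) hωη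
  have hH3 : Hyp u U W3 ω3 := hyp_mono hH (fun x hx => by simp [hx]) (min_le_left _ _)
  have hen : en (fun g => u (θ g)) S U ≤ η * tr U := by
    have a1 : ∀ s ∈ S, nsq (cm (u (θ s)) U) ≤ ω * tr U := fun s hs =>
      hcm _ (mem_union_right _ (mem_image_of_mem _ hs))
    have a2 := sum_le_sum a1
    rw [sum_const, nsmul_eq_mul] at a2
    have a3 : (S.card : ℝ) * (ω * tr U) ≤ η * tr U := by
      rw [← mul_assoc]
      refine mul_le_mul_of_nonneg_right ?_ hU0.le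
      nlinarith
    exact a2.trans a3
  obtain ⟨m, F, hm, hF1, hF2, hF, ι, _, y, hy, hyE, hyΦ⟩ :=
    hLS n G (fun g => u (θ g)) S U η hη hU hU0 hen
  have hB : Bnd (fun g => u (θ g)) S U K η F m := by
    intro κ _ z hz s hs
    obtain ⟨z', hz', hL, hR, hE2, hd⟩ := hLI'' n u U hH3 m hm κ z hz
    have b1 := hF κ z' hz' hE2
    have b2 : AA z ≤ (1 + s) * AA z' + (1 + 1 / s) * ∑ a, nsq (z a - z' a) := by
      rw [AA, AA, Finset.mul_sum, Finset.mul_sum, ← sum_add_distrib]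
      refine sum_le_sum fun a _ => ?_
      have := nsq_add_le_t s hs (z' a) (z a - z' a)
      rwa [add_sub_cancel] at this
    have b3 := AA_le hz'
    have hs1 : 0 ≤ 1 + 1 / s := by positivity
    have b4 := mul_le_mul_of_nonneg_left hd hs1
    have b5 : s * AA z' ≤ s * (m * tr U) := mul_le_mul_of_nonneg_left b3 hs.le
    have b6 : AA z ≤ AA z' + s * (m * tr U) +
        (1 + 1 / s) * (K * EE (fun g => u (θ g)) S z + η * (m * tr U)) := by linarith
    have b7 := mul_le_mul_of_nonneg_left b6 (by positivity : 0 ≤ 4 * m)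
    have e : (F + 2 * s + 2 * (1 + 1 / s) * η) * (2 * m ^ 2 * tr U) +
        4 * m * (1 + 1 / s) * K * EE (fun g => u (θ g)) S z =
        F * (2 * m ^ 2 * tr U) + 4 * m * (s * (m * tr U) +
          (1 + 1 / s) * (K * EE (fun g => u (θ g)) S z + η * (m * tr U))) := by ring
    rw [e]
    linarith
  obtain ⟨y', hy', hA, hE3⟩ := hCD' η hη (min_le_left _ _) n u U hH2 hirr m F hm hF2 hB ι y hy
    hyE hyΦ
  refine hE'' η hη (min_le_right _ _) n u U hH1 hcb m F hm hF1 hB ι y' hy' hE3 ?_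
  have c1 := nsq_nonneg (LL y)
  have c2 := nsq_nonneg (RR y)
  have c3 : 4 * m * ((F - η) / 2 * (m * tr U)) ≤ 4 * m * AA y := by
    have e : 4 * m * ((F - η) / 2 * (m * tr U)) = (F - η) * (2 * m ^ 2 * tr U) := by ring
    rw [e]
    linarith
  have c4 : (F - η) / 2 * (m * tr U) ≤ AA y := le_of_mul_le_mul_left c3 (by positivity)
  have e : ((F - η) / 2 - 1 / 500) * (m * tr U) = (F - η) / 2 * (m * tr U) - m * tr U / 500 := by
    ring
  rw [e]
  linarith

end Pool.Agent.H776Z.NHP2
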